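import Mathlib

/-! A central Cantor set `C` such that `C - C` has nonempty interior, but `0` is not interior. -/

set_option autoImplicit false

namespace Pool.Agent.Run7.h792.CC

open Filter Topology Set Finset

noncomputable def a (n : ℕ) : ℝ := if Even n then 13 / 51 else 23 / 57

noncomputable def P (n : ℕ) : ℝ := ∏ i ∈ range n, (1 - a i) / 2

noncomputable def X (n : ℕ) : ℝ := P n * (1 - (1 - a n) / 2)

lemma a_even (k : ℕ) : a (2 * k) = 13 / 51 := by
  unfold a; rw [if_pos ⟨k, by ring⟩]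

lemma a_odd (k : ℕ) : a (2 * k + 1) = 23 / 57 := by
  unfold a; rw [if_neg (by rw [Nat.not_even_iff_odd]; exact ⟨k, rfl⟩)]

lemma P_even (k : ℕ) : P (2 * k) = (1 / 9) ^ k := by
  unfold P
  induction k with
  | zero => simp
  | succ k ih =>
    rw [show 2 * (k + 1) = (2 * k + 1) + 1 by ring, prod_range_succ, prod_range_succ, ih, a_even,
      a_odd, pow_succ]
    ring

lemma P_odd (k : ℕ) : P (2 * k + 1) = 19 / 51 * (1 / 9) ^ k := by
  have h := P_even k
  unfold P at *
  rw [prod_range_succ, h, a_even]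
  ring

lemma X_eq (n : ℕ) : X n = P n - P (n + 1) := by
  unfold X
  have : P (n + 1) = P n * ((1 - a n) / 2) := by unfold P; rw [prod_range_succ]
  rw [this]; ring

lemma X_even (k : ℕ) : X (2 * k) = 12 * (8 / 153) * (1 / 9) ^ k := by
  rw [X_eq, P_even, P_odd]; ring

lemma X_odd (k : ℕ) : X (2 * k + 1) = 5 * (8 / 153) * (1 / 9) ^ k := by
  rw [X_eq, P_odd, show 2 * k + 1 + 1 = 2 * (k + 1) by ring, P_even, pow_succ]; ring

lemma X_pos (n : ℕ) : 0 < X n := by
  rcases Nat.even_or_odd' n with ⟨k, rfl | rfl⟩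
  · rw [X_even]; positivity
  · rw [X_odd]; positivity

lemma P_tendsto : Tendsto P atTop (𝓝 0) := by
  have h1 : ∀ n, 0 ≤ P n := by
    intro n
    rcases Nat.even_or_odd' n with ⟨k, rfl | rfl⟩
    · rw [P_even]; positivity
    · rw [P_odd]; positivity
  have h2 : ∀ n, P n ≤ 3 * (1 / 3) ^ n := by
    intro n
    rcases Nat.even_or_odd' n with ⟨k, rfl | rfl⟩
    · rw [P_even, pow_mul]
      have : (0 : ℝ) < (1 / 9) ^ k := by positivity
      norm_num
    · rw [P_odd, pow_succ, pow_mul]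
      have : (0 : ℝ) < (1 / 9) ^ k := by positivity
      norm_num
      linarith
  have h3 : Tendsto (fun n : ℕ => 3 * (1 / 3 : ℝ) ^ n) atTop (𝓝 0) := by
    have := (tendsto_pow_atTop_nhds_zero_of_lt_one (by norm_num : (0 : ℝ) ≤ 1 / 3)
      (by norm_num)).const_mul 3
    simpa using this
  exact squeeze_zero h1 h2 h3

lemma hasSum_tail (n : ℕ) : HasSum (fun m => X (m + n)) (P n) := by
  rw [hasSum_iff_tendsto_nat_of_nonneg (fun m => (X_pos _).le)]
  have h : ∀ M, ∑ m ∈ range M, X (m + n) = P n - P (n + M) := by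
    intro M
    induction M with
    | zero => simp
    | succ M ih =>
      rw [sum_range_succ, ih, X_eq, show M + n + 1 = n + (M + 1) by ring, add_comm M n]
      ring
  simp_rw [h]
  have h2 : Tendsto (fun M => P (n + M)) atTop (𝓝 0) := by
    have := (tendsto_add_atTop_iff_nat n).2 P_tendsto
    simpa [add_comm] using this
  simpa using h2.const_sub (P n)

lemma summable_X : Summable X := by
  have := (hasSum_tail 0).summable
  simpa using this

lemma summable_dX {δ : ℕ → ℝ} (hδ : ∀ n, |δ n| ≤ 1) : Summable fun n => δ n * X n := by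
  refine Summable.of_norm_bounded summable_X fun n => ?_
  rw [Real.norm_eq_abs, abs_mul, abs_of_pos (X_pos n)]
  nlinarith [hδ n, X_pos n]

lemma tail_bound {δ : ℕ → ℝ} (hδ : ∀ n, |δ n| ≤ 1) (n : ℕ) :
    |∑' m, δ (m + n) * X (m + n)| ≤ P n := by
  have h1 := hasSum_tail n
  have h2 := tsum_of_norm_bounded h1 (f := fun m => δ (m + n) * X (m + n)) (fun m => by
    rw [Real.norm_eq_abs, abs_mul, abs_of_pos (X_pos _)]
    nlinarith [hδ (m + n), X_pos (m + n)])
  rwa [Real.norm_eq_abs] at h2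

/-- nonzero differences lie in the intervals `[23/153 · 9^{-k}, 9^{-k}]` -/
lemma range_bound {δ : ℕ → ℝ} (hδ : ∀ n, δ n = -1 ∨ δ n = 0 ∨ δ n = 1) (hne : ∃ n, δ n ≠ 0) :
    ∃ k : ℕ, 23 / 153 * (1 / 9) ^ k ≤ |∑' n, δ n * X n| ∧ |∑' n, δ n * X n| ≤ (1 / 9) ^ k := by
  classical
  have hδ1 : ∀ n, |δ n| ≤ 1 := by
    intro n
    rcases hδ n with h | h | h <;> rw [h] <;> norm_num
  set n₀ := Nat.find hne with hn₀
  have h0 : δ n₀ ≠ 0 := Nat.find_spec hne
  have hlt : ∀ n < n₀, δ n = 0 := by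
    intro n hn
    by_contra h
    exact Nat.find_min hne hn h
  have habs : |δ n₀| = 1 := by
    rcases hδ n₀ with h | h | h
    · rw [h]; norm_num
    · exact absurd h h0
    · rw [h]; norm_num
  have hs := (summable_dX hδ1).sum_add_tsum_nat_add (n₀ + 1)
  have hz : ∑ i ∈ range (n₀ + 1), δ i * X i = δ n₀ * X n₀ := by
    rw [sum_range_succ, sum_eq_zero, zero_add]
    intro i hi
    rw [hlt i (Finset.mem_range.1 hi), zero_mul]
  rw [hz] at hs
  have ht := tail_bound hδ1 (n₀ + 1)
  have hm : |δ n₀ * X n₀| = X n₀ := by rw [abs_mul, habs, one_mul, abs_of_pos (X_pos _)]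
  have hlow : X n₀ - P (n₀ + 1) ≤ |∑' n, δ n * X n| := by
    rw [← hs]
    have := abs_sub_abs_le_abs_sub (δ n₀ * X n₀) (-(∑' m, δ (m + (n₀ + 1)) * X (m + (n₀ + 1))))
    rw [abs_neg, sub_neg_eq_add, hm] at this
    linarith
  have hup : |∑' n, δ n * X n| ≤ X n₀ + P (n₀ + 1) := by
    rw [← hs]
    refine (abs_add_le _ _).trans ?_
    rw [hm]
    linarith
  rcases Nat.even_or_odd' n₀ with ⟨k, hk | hk⟩
  · refine ⟨k, ?_, ?_⟩
    · refine le_trans ?_ hlow
      rw [hk, X_even, P_odd]
      have : (0 : ℝ) < (1 / 9) ^ k := by positivity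
      linarith
    · refine hup.trans ?_
      rw [hk, X_even, P_odd]
      have : (0 : ℝ) < (1 / 9) ^ k := by positivity
      linarith
  · refine ⟨k, ?_, ?_⟩
    · refine le_trans ?_ hlow
      rw [hk, X_odd, show 2 * k + 1 + 1 = 2 * (k + 1) by ring, P_even, pow_succ]
      have : (0 : ℝ) < (1 / 9) ^ k := by positivity
      linarith
    · refine hup.trans ?_
      rw [hk, X_odd, show 2 * k + 1 + 1 = 2 * (k + 1) by ring, P_even, pow_succ]
      have : (0 : ℝ) < (1 / 9) ^ k := by positivity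
      linarith

noncomputable def F (ε : ℕ → Bool) : ℝ := ∑' n, if ε n = true then X n else 0

noncomputable def C : Set ℝ := Set.range F

noncomputable def DC : Set ℝ := {z : ℝ | ∃ u ∈ C, ∃ v ∈ C, z = u - v}

lemma F_cont : Continuous F := by
  unfold F
  refine continuous_tsum (u := X) (fun n => ?_) summable_X (fun n ε => ?_)
  · have h : Continuous fun b : Bool => if b = true then X n else (0 : ℝ) :=
      continuous_of_discreteTopology
    exact h.comp (continuous_apply n)
  · split_ifs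
    · rw [Real.norm_of_nonneg (X_pos n).le]
    · rw [norm_zero]; exact (X_pos n).le

lemma C_compact : IsCompact C := isCompact_range F_cont

lemma DC_compact : IsCompact DC := by
  have h : DC = (fun p : ℝ × ℝ => p.1 - p.2) '' (C ×ˢ C) := by
    ext z
    constructor
    · rintro ⟨u, hu, v, hv, rfl⟩
      exact ⟨(u, v), ⟨hu, hv⟩, rfl⟩
    · rintro ⟨⟨u, v⟩, ⟨hu, hv⟩, rfl⟩
      exact ⟨u, hu, v, hv, rfl⟩
  rw [h]
  exact (C_compact.prod C_compact).image (by fun_prop)

lemma F_summable (ε : ℕ → Bool) : Summable fun n => if ε n = true then X n else (0 : ℝ) := by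
  refine Summable.of_norm_bounded summable_X fun n => ?_
  split_ifs
  · rw [Real.norm_of_nonneg (X_pos n).le]
  · rw [norm_zero]; exact (X_pos n).le

lemma DC_sub {z : ℝ} (hz : z ∈ DC) : z = 0 ∨ ∃ k : ℕ, 23 / 153 * (1 / 9) ^ k ≤ |z| ∧
    |z| ≤ (1 / 9) ^ k := by
  obtain ⟨_, ⟨ε, rfl⟩, _, ⟨ε', rfl⟩, rfl⟩ := hz
  set δ : ℕ → ℝ := fun n => (if ε n = true then 1 else 0) - (if ε' n = true then 1 else 0) with hδ
  have h1 : F ε - F ε' = ∑' n, δ n * X n := by
    unfold F
    rw [← (F_summable ε).tsum_sub (F_summable ε')]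
    refine tsum_congr fun n => ?_
    simp only [hδ]
    by_cases h : ε n = true <;> by_cases h' : ε' n = true <;> simp [h, h']
  by_cases hne : ∃ n, δ n ≠ 0
  · right
    rw [h1]
    apply range_bound _ hne
    intro n
    simp only [hδ]
    by_cases h : ε n = true <;> by_cases h' : ε' n = true <;> simp [h, h']
  · left
    push Not at hne
    rw [h1]
    simp [hne]

lemma zero_not_interior : (0 : ℝ) ∉ interior DC := by
  intro h
  rw [mem_interior_iff_mem_nhds, Metric.mem_nhds_iff] at h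
  obtain ⟨r, hr, hb⟩ := h
  obtain ⟨k, hk⟩ := exists_pow_lt_of_lt_one hr (by norm_num : (1 / 9 : ℝ) < 1)
  have hpos : (0 : ℝ) < (1 / 9) ^ k := by positivity
  have hmem : (20 / 153 * (1 / 9) ^ k : ℝ) ∈ DC := by
    apply hb
    rw [Metric.mem_ball, dist_zero_right, Real.norm_of_nonneg (by positivity)]
    linarith
  rcases DC_sub hmem with h0 | ⟨j, hj1, hj2⟩
  · linarith
  · rw [abs_of_pos (by positivity)] at hj1 hj2
    rcases le_or_gt j k with hjk | hjk
    · have : (1 / 9 : ℝ) ^ k ≤ (1 / 9) ^ j :=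
        pow_le_pow_of_le_one (by norm_num) (by norm_num) hjk
      linarith
    · have : (1 / 9 : ℝ) ^ j ≤ (1 / 9) ^ (k + 1) :=
        pow_le_pow_of_le_one (by norm_num) (by norm_num) hjk
      rw [pow_succ] at this
      linarith

/-- finite signed sums are differences -/
lemma fin_mem {δ : ℕ → ℤ} (hδ : ∀ n, δ n = -1 ∨ δ n = 0 ∨ δ n = 1) (N : ℕ) :
    ∑ n ∈ range N, (δ n : ℝ) * X n ∈ DC := by
  classical
  refine ⟨F fun n => decide (n < N ∧ δ n = 1), ⟨_, rfl⟩, F fun n => decide (n < N ∧ δ n = -1),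
    ⟨_, rfl⟩, ?_⟩
  have h1 : F (fun n => decide (n < N ∧ δ n = 1)) = ∑ n ∈ range N, if δ n = 1 then X n else 0 := by
    unfold F
    rw [tsum_eq_sum (s := range N)]
    · refine sum_congr rfl fun n hn => ?_
      have := Finset.mem_range.1 hn
      simp [this]
    · intro n hn
      rw [Finset.mem_range] at hn
      simp [hn]
  have h2 : F (fun n => decide (n < N ∧ δ n = -1)) = ∑ n ∈ range N, if δ n = -1 then X n else 0 := by
    unfold F
    rw [tsum_eq_sum (s := range N)]
    · refine sum_congr rfl fun n hn => ?_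
      have := Finset.mem_range.1 hn
      simp [this]
    · intro n hn
      rw [Finset.mem_range] at hn
      simp [hn]
  rw [h1, h2, ← sum_sub_distrib]
  refine sum_congr rfl fun n _ => ?_
  rcases hδ n with h | h | h <;> rw [h] <;> norm_num

/-- last-digit expansion of integers in base `9` -/
lemma digits (N : ℕ) : ∀ m : ℤ, ∃ k : ℤ, ∃ δ : ℕ → ℤ, (∀ n, δ n = -1 ∨ δ n = 0 ∨ δ n = 1) ∧
    (m : ℝ) / 9 ^ N = k + (1 / (9 * (8 / 153))) * ∑ n ∈ range (2 * N), (δ n : ℝ) * X n := by
  induction N with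
  | zero =>
    intro m
    exact ⟨m, fun _ => 0, fun _ => Or.inr (Or.inl rfl), by simp⟩
  | succ N ih =>
    intro m
    have hex : ∃ e e' m' : ℤ, (e = -1 ∨ e = 0 ∨ e = 1) ∧ (e' = -1 ∨ e' = 0 ∨ e' = 1) ∧
        m = 12 * e + 5 * e' + 9 * m' := by
      have h9 : m % 9 = 0 ∨ m % 9 = 1 ∨ m % 9 = 2 ∨ m % 9 = 3 ∨ m % 9 = 4 ∨ m % 9 = 5 ∨
        m % 9 = 6 ∨ m % 9 = 7 ∨ m % 9 = 8 := by omega
      rcases h9 with h | h | h | h | h | h | h | h | h
      · exact ⟨0, 0, m / 9, by omega, by omega, by omega⟩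
      · exact ⟨-1, -1, m / 9 + 2, by omega, by omega, by omega⟩
      · exact ⟨-1, 1, m / 9 + 1, by omega, by omega, by omega⟩
      · exact ⟨1, 0, m / 9 - 1, by omega, by omega, by omega⟩
      · exact ⟨0, -1, m / 9 + 1, by omega, by omega, by omega⟩
      · exact ⟨0, 1, m / 9, by omega, by omega, by omega⟩
      · exact ⟨-1, 0, m / 9 + 2, by omega, by omega, by omega⟩
      · exact ⟨1, -1, m / 9, by omega, by omega, by omega⟩
      · exact ⟨1, 1, m / 9 - 1, by omega, by omega, by omega⟩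
    obtain ⟨e, e', m', he, he', hm⟩ := hex
    obtain ⟨k, δ, hδ, hk⟩ := ih m'
    refine ⟨k, fun n => if n = 2 * N then e else if n = 2 * N + 1 then e' else δ n, ?_, ?_⟩
    · intro n
      simp only
      split_ifs
      · exact he
      · exact he'
      · exact hδ n
    · rw [show 2 * (N + 1) = 2 * N + 1 + 1 by ring, sum_range_succ, sum_range_succ]
      have h1 : ∑ n ∈ range (2 * N), (((if n = 2 * N then e else if n = 2 * N + 1 then e' else δ n)
          : ℤ) : ℝ) * X n = ∑ n ∈ range (2 * N), (δ n : ℝ) * X n := by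
        refine sum_congr rfl fun n hn => ?_
        rw [Finset.mem_range] at hn
        rw [if_neg (by omega), if_neg (by omega)]
      have t1 : (fun n => if n = 2 * N then e else if n = 2 * N + 1 then e' else δ n) (2 * N) = e := by
        simp
      have t2 : (fun n => if n = 2 * N then e else if n = 2 * N + 1 then e' else δ n) (2 * N + 1)
          = e' := by
        simp
      rw [h1, t1, t2, X_even, X_odd]
      have h2 : (m : ℝ) / 9 ^ (N + 1) = (m' : ℝ) / 9 ^ N + (12 * e + 5 * e') / (9 * 9 ^ N) := by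
        rw [hm]
        push_cast
        field_simp
        ring
      rw [h2, hk]
      have h3 : ((1 : ℝ) / 9) ^ N = 1 / 9 ^ N := by rw [one_div, one_div, inv_pow]
      rw [h3]
      field_simp
      ring

lemma cover (y : ℝ) : ∃ k : ℤ, y - 9 * (8 / 153) * k ∈ DC := by
  set B : ℕ := ⌈|y / (9 * (8 / 153))|⌉₊ + 5 with hB
  have hclosed : IsClosed (⋃ k ∈ (Finset.Icc (-(B : ℤ)) B : Finset ℤ),
      (fun z : ℝ => z + 9 * (8 / 153) * k) '' DC) := by
    apply Set.Finite.isClosed_biUnion (Finset.finite_toSet _)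
    intro k _
    exact (DC_compact.image (by fun_prop)).isClosed
  have hmem : y ∈ closure (⋃ k ∈ (Finset.Icc (-(B : ℤ)) B : Finset ℤ),
      (fun z : ℝ => z + 9 * (8 / 153) * k) '' DC) := by
    rw [Metric.mem_closure_iff]
    intro ε hε
    obtain ⟨N, hN⟩ := exists_pow_lt_of_lt_one (show (0 : ℝ) < ε by exact hε)
      (by norm_num : (1 / 9 : ℝ) < 1)
    set c : ℝ := 9 * (8 / 153) with hc
    have hc0 : 0 < c := by rw [hc]; norm_num
    have hc1 : c < 1 := by rw [hc]; norm_num
    set m := ⌊9 ^ N * (y / c)⌋ with hm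
    obtain ⟨k, δ, hδ, hk⟩ := digits N m
    rw [← hc] at hk
    have hp : (0 : ℝ) < 9 ^ N := by positivity
    have h1 : |y / c - m / 9 ^ N| ≤ (1 / 9) ^ N := by
      have a1 := Int.floor_le (9 ^ N * (y / c))
      have a2 := Int.lt_floor_add_one (9 ^ N * (y / c))
      rw [← hm] at a1 a2
      have e : y / c - m / 9 ^ N = (9 ^ N * (y / c) - m) * (1 / 9) ^ N := by
        rw [one_div, inv_pow]; field_simp
      rw [e, abs_mul, abs_of_nonneg (by linarith), abs_of_pos (by positivity : (0 : ℝ) < (1 / 9) ^ N)]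
      have : (0 : ℝ) < (1 / 9) ^ N := by positivity
      nlinarith
    set s := ∑ n ∈ range (2 * N), (δ n : ℝ) * X n with hs
    have hsD : s ∈ DC := fin_mem hδ _
    have hsb : |s| ≤ 1 := by
      rcases DC_sub hsD with h | ⟨j, -, h⟩
      · rw [h]; norm_num
      · exact h.trans (pow_le_one₀ (by norm_num) (by norm_num))
    have hpow1 : ((1 : ℝ) / 9) ^ N ≤ 1 := pow_le_one₀ (by norm_num) (by norm_num)
    have hkb : |(k : ℝ)| ≤ B := by
      have e : (k : ℝ) = y / c - (y / c - m / 9 ^ N) - 1 / c * s := by rw [hk]; ring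
      have b1 : |y / c| ≤ ⌈|y / c|⌉₊ := Nat.le_ceil _
      have b2 : |1 / c * s| ≤ 3 := by
        rw [abs_mul, abs_of_pos (by positivity : 0 < 1 / c)]
        have : 1 / c ≤ 3 := by rw [hc]; norm_num
        have h0 : 0 < 1 / c := by positivity
        nlinarith [abs_nonneg s]
      have b3 := abs_sub (y / c - (y / c - m / 9 ^ N)) (1 / c * s)
      have b4 := abs_sub (y / c) (y / c - m / 9 ^ N)
      rw [e, hB]
      push_cast
      linarith
    have hkb' : k ∈ Finset.Icc (-(B : ℤ)) B := by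
      rw [Finset.mem_Icc]
      have := abs_le.1 hkb
      constructor
      · exact_mod_cast this.1
      · exact_mod_cast this.2
    refine ⟨s + c * k, ?_, ?_⟩
    · exact Set.mem_biUnion hkb' ⟨s, hsD, rfl⟩
    · rw [Real.dist_eq]
      have e : y - (s + c * k) = c * (y / c - m / 9 ^ N) := by
        rw [hk]
        field_simp
        ring
      rw [e, abs_mul, abs_of_pos hc0]
      have h0 : (0 : ℝ) < (1 / 9) ^ N := by positivity
      nlinarith [abs_nonneg (y / c - m / 9 ^ N)]
  rw [hclosed.closure_eq] at hmem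
  obtain ⟨k, -, z, hz, hzy⟩ := Set.mem_iUnion₂.1 hmem
  refine ⟨k, ?_⟩
  have : y - 9 * (8 / 153) * k = z := by
    simp only at hzy
    linarith
  rw [this]
  exact hz

lemma interior_nonempty : (interior DC).Nonempty := by
  have h1 : ⋃ k : ℤ, (fun z : ℝ => z + 9 * (8 / 153) * k) '' DC = Set.univ := by
    rw [Set.eq_univ_iff_forall]
    intro y
    obtain ⟨k, hk⟩ := cover y
    exact Set.mem_iUnion.2 ⟨k, _, hk, by ring⟩
  obtain ⟨k, x, hx⟩ := nonempty_interior_of_iUnion_of_closed
    (fun k : ℤ => (DC_compact.image (by fun_prop :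
      Continuous fun z : ℝ => z + 9 * (8 / 153) * k)).isClosed) h1
  refine ⟨x - 9 * (8 / 153) * k, ?_⟩
  rw [mem_interior_iff_mem_nhds] at hx ⊢
  rw [Metric.mem_nhds_iff] at hx ⊢
  obtain ⟨r, hr, hb⟩ := hx
  refine ⟨r, hr, fun y hy => ?_⟩
  have h2 : y + 9 * (8 / 153) * k ∈ Metric.ball x r := by
    rw [Metric.mem_ball, Real.dist_eq] at hy ⊢
    have : y + 9 * (8 / 153) * k - x = y - (x - 9 * (8 / 153) * k) := by ring
    rw [this]; exact hy
  obtain ⟨z, hz, hzy⟩ := hb h2
  have : z = y := by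
    simp only at hzy
    linarith
  rw [← this]
  exact hz

lemma a_range (n : ℕ) : 0 < a n ∧ a n < 1 := by
  unfold a
  split_ifs <;> norm_num

end Pool.Agent.Run7.h792.CC
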