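import Mathlib

/-! A compact set which is not the center of distances of any compact set. -/

set_option autoImplicit false

namespace Pool.Agent.Run7.h792.CD

open Filter Topology Set

/-- two holes of length `ℓ` at distance less than `1` have no point of `K` between them -/
lemma hole {K : Set ℝ} (hK : ∀ c : ℝ, 0 ≤ c → c ≤ 1 → ∀ x ∈ K, x + c ∈ K ∨ x - c ∈ K) {ℓ : ℝ}
    (hℓ : 0 < ℓ) (n : ℕ) : ∀ p q : ℝ, p ≤ q → q - p < 1 → q - p < 2 ^ n * ℓ →
      (∀ z, p - ℓ < z → z < p → z ∉ K) → (∀ z, q < z → z < q + ℓ → z ∉ K) →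
      ∀ y ∈ K, p ≤ y → y ≤ q → False := by
  -- points near the middle
  have mid : ∀ p q : ℝ, q - p < 1 →
      (∀ z, p - ℓ < z → z < p → z ∉ K) → (∀ z, q < z → z < q + ℓ → z ∉ K) →
      ∀ y ∈ K, p ≤ y → y ≤ q → |(y - p) - (q - y)| < ℓ → False := by
    intro p q h1 hp hq y hy hpy hyq hm
    rw [abs_lt] at hm
    set M := max (y - p) (q - y) with hM
    set m := min (min (y - p + ℓ) (q - y + ℓ)) 1 with hmd
    have hMm : M < m := by
      rw [hM, hmd, max_lt_iff]
      constructor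
      · rw [lt_min_iff, lt_min_iff]
        exact ⟨⟨by linarith, by linarith [hm.1]⟩, by linarith⟩
      · rw [lt_min_iff, lt_min_iff]
        exact ⟨⟨by linarith [hm.2], by linarith⟩, by linarith⟩
    have hM1 : y - p ≤ M := le_max_left _ _
    have hM2 : q - y ≤ M := le_max_right _ _
    have hm1 : m ≤ y - p + ℓ := (min_le_left _ _).trans (min_le_left _ _)
    have hm2 : m ≤ q - y + ℓ := (min_le_left _ _).trans (min_le_right _ _)
    have hm3 : m ≤ 1 := min_le_right _ _
    rcases hK ((M + m) / 2) (by linarith) (by linarith) y hy with h | h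
    · exact hq _ (by linarith) (by linarith) h
    · exact hp _ (by linarith) (by linarith) h
  induction n with
  | zero =>
    intro p q hpq h1 h2 hp hq y hy hpy hyq
    apply mid p q h1 hp hq y hy hpy hyq
    rw [abs_lt]
    constructor <;> linarith
  | succ n ih =>
    intro p q hpq h1 h2 hp hq y hy hpy hyq
    by_cases hm : |(y - p) - (q - y)| < ℓ
    · exact mid p q h1 hp hq y hy hpy hyq hm
    push Not at hm
    have h2' : q - p < 2 * (2 ^ n * ℓ) := by rw [pow_succ] at h2; linarith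
    rcases le_abs.1 hm with h | h
    · -- y on the right
      refine ih ((p + q) / 2 + ℓ / 2) q (by linarith) (by linarith) (by linarith) ?_ hq y hy
        (by linarith) hyq
      intro z hz1 hz2 hzK
      apply mid p q h1 hp hq z hzK (by linarith) (by linarith)
      rw [abs_lt]
      constructor <;> linarith
    · refine ih p ((p + q) / 2 - ℓ / 2) (by linarith) (by linarith) (by linarith) hp ?_ y hy
        hpy (by linarith)
      intro z hz1 hz2 hzK
      apply mid p q h1 hp hq z hzK (by linarith) (by linarith)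
      rw [abs_lt]
      constructor <;> linarith

/-- two points outside `K` at distance less than `1` have no point of `K` between them -/
lemma star {K : Set ℝ} (hKc : IsClosed K)
    (hK : ∀ c : ℝ, 0 ≤ c → c ≤ 1 → ∀ x ∈ K, x + c ∈ K ∨ x - c ∈ K) :
    ∀ z₁ z₂ : ℝ, z₁ ≤ z₂ → z₂ - z₁ < 1 → z₁ ∉ K → z₂ ∉ K → ∀ y, z₁ ≤ y → y ≤ z₂ → y ∉ K := by
  intro z₁ z₂ h12 hd h1 h2 y hy1 hy2 hyK
  have hop := hKc.isOpen_compl
  obtain ⟨r₁, hr₁, hb₁⟩ := Metric.isOpen_iff.1 hop z₁ h1
  obtain ⟨r₂, hr₂, hb₂⟩ := Metric.isOpen_iff.1 hop z₂ h2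
  set ℓ := min r₁ r₂ with hℓd
  have hℓ : 0 < ℓ := lt_min hr₁ hr₂
  obtain ⟨n, hn⟩ := pow_unbounded_of_one_lt ((z₂ - z₁) / ℓ) (one_lt_two : (1 : ℝ) < 2)
  rw [div_lt_iff₀ hℓ] at hn
  refine hole hK hℓ n z₁ z₂ h12 hd hn ?_ ?_ y hyK hy1 hy2
  · intro z hz1 hz2
    apply hb₁
    rw [Metric.mem_ball, Real.dist_eq, abs_lt]
    have := min_le_left r₁ r₂
    constructor <;> linarith
  · intro z hz1 hz2
    apply hb₂
    rw [Metric.mem_ball, Real.dist_eq, abs_lt]
    have := min_le_right r₁ r₂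
    constructor <;> linarith

lemma contraA {K : Set ℝ}
    (H : ∀ z₁ z₂ : ℝ, z₁ ≤ z₂ → z₂ - z₁ < 1 → z₁ ∉ K → z₂ ∉ K → ∀ y, z₁ ≤ y → y ≤ z₂ → y ∉ K)
    {u v a b β : ℝ} (huv : u ≤ v) (hd : v - u < 1 / 2) (hI : ∀ y, u ≤ y → y ≤ v → y ∈ K)
    (h1 : u + a ∉ K) (h2 : u - a ∉ K) (h3 : v + b ∉ K) (h4 : v - b ∉ K) (ha : a < β) (hb : β < b)
    (hab : b - a < 1 / 2) (hβ : ∀ x ∈ K, x + β ∈ K ∨ x - β ∈ K) : False := by
  by_cases hc : v - (b - β) ≤ u + (β - a)
  · -- y = max u (v - e)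
    set y := max u (v - (b - β)) with hy
    have hy1 : u ≤ y := le_max_left _ _
    have hy2 : v - (b - β) ≤ y := le_max_right _ _
    have hy3 : y ≤ v := max_le huv (by linarith)
    have hy4 : y ≤ u + (β - a) := max_le (by linarith) hc
    rcases hβ y (hI y hy1 hy3) with h | h
    · exact H (u + a) (v + b) (by linarith) (by linarith) h1 h3 (y + β) (by linarith)
        (by linarith) h
    · exact H (v - b) (u - a) (by linarith) (by linarith) h4 h2 (y - β) (by linarith)
        (by linarith) h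
  · push Not at hc
    rcases hβ (u + (β - a)) (hI _ (by linarith) (by linarith)) with h | h
    · exact H (u + a) (v + b) (by linarith) (by linarith) h1 h3 (u + (β - a) + β) (by linarith)
        (by linarith) h
    · apply h2
      have : u + (β - a) - β = u - a := by ring
      rwa [this] at h

lemma contraB {K : Set ℝ}
    (H : ∀ z₁ z₂ : ℝ, z₁ ≤ z₂ → z₂ - z₁ < 1 → z₁ ∉ K → z₂ ∉ K → ∀ y, z₁ ≤ y → y ≤ z₂ → y ∉ K)
    {u v a b β : ℝ} (huv : u ≤ v) (hd : v - u < 1 / 2) (hI : ∀ y, u ≤ y → y ≤ v → y ∈ K)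
    (h1 : u + a ∉ K) (h2 : u - a ∉ K) (h3 : v + b ∉ K) (h4 : v - b ∉ K) (ha : b < β) (hb : β < a)
    (hab : a - b < 1 / 2) (hβ : ∀ x ∈ K, x + β ∈ K ∨ x - β ∈ K) : False := by
  refine contraA (K := {x | -x ∈ K}) (u := -v) (v := -u) (a := b) (b := a) (β := β) ?_
    (by linarith) (by linarith) ?_ ?_ ?_ ?_ ?_ ha hb hab ?_
  · intro z₁ z₂ h12 hd2 hz1 hz2 y hy1 hy2 hy
    exact H (-z₂) (-z₁) (by linarith) (by linarith) hz2 hz1 (-y) (by linarith) (by linarith) hy
  · intro y hy1 hy2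
    exact hI (-y) (by linarith) (by linarith)
  · intro h
    apply h4
    have e : v - b = -(-v + b) := by ring
    rw [e]; exact h
  · intro h
    apply h3
    have e : v + b = -(-v - b) := by ring
    rw [e]; exact h
  · intro h
    apply h2
    have e : u - a = -(-u + a) := by ring
    rw [e]; exact h
  · intro h
    apply h1
    have e : u + a = -(-u - a) := by ring
    rw [e]; exact h
  · intro x hx
    rcases hβ (-x) hx with h | h
    · right
      have e : -(x - β) = -x + β := by ring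
      change -(x - β) ∈ K
      rw [e]; exact h
    · left
      have e : -(x + β) = -x - β := by ring
      change -(x + β) ∈ K
      rw [e]; exact h

lemma three {K : Set ℝ}
    (H : ∀ z₁ z₂ : ℝ, z₁ ≤ z₂ → z₂ - z₁ < 1 → z₁ ∉ K → z₂ ∉ K → ∀ y, z₁ ≤ y → y ≤ z₂ → y ∉ K)
    {u v w : ℝ} (huv : u ≤ v) (hvw : v ≤ w) (hd : w - u < 1) (hv : v ∈ K) :
    (∀ y, u ≤ y → y ≤ v → y ∈ K) ∨ (∀ y, v ≤ y → y ≤ w → y ∈ K) := by
  by_contra hcon
  push Not at hcon
  obtain ⟨⟨z₁, h1, h2, h3⟩, z₂, h4, h5, h6⟩ := hcon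
  exact H z₁ z₂ (by linarith) (by linarith) h3 h6 v h2 h4 hv

theorem main (K : Set ℝ) (hKc : IsCompact K)
    (hK : {α : ℝ | 0 ≤ α ∧ ∀ x ∈ K, ∃ y ∈ K, |x - y| = α}
      = Icc 0 1 ∪ insert 2 (range fun n : ℕ => (2 : ℝ) + 1 / (n + 2))) : False := by
  have hpm : ∀ {α : ℝ}, α ∈ Icc (0 : ℝ) 1 ∪ insert 2 (range fun n : ℕ => (2 : ℝ) + 1 / (n + 2)) →
      ∀ x ∈ K, x + α ∈ K ∨ x - α ∈ K := by
    intro α hα x hx
    rw [← hK] at hα
    obtain ⟨hα0, hα1⟩ := hα
    obtain ⟨y, hy, hxy⟩ := hα1 x hx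
    rcases abs_eq hα0 |>.1 hxy with h | h
    · right
      have : x - α = y := by linarith
      rw [this]; exact hy
    · left
      have : x + α = y := by linarith
      rw [this]; exact hy
  have H := star hKc.isClosed (fun c h0 h1 => hpm (Or.inl ⟨h0, h1⟩))
  -- the witnesses
  set α : ℕ → ℝ := fun n => 2 + (1 / (n + 2) + 1 / (n + 3)) / 2 with hα
  have hα1 : ∀ n : ℕ, (2 : ℝ) + 1 / (n + 3) < α n := by
    intro n
    have : (1 : ℝ) / (n + 3) < 1 / (n + 2) :=
      one_div_lt_one_div_of_lt (by positivity) (by linarith)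
    simp only [hα]
    linarith
  have hα2 : ∀ n : ℕ, α n < (2 : ℝ) + 1 / (n + 2) := by
    intro n
    have : (1 : ℝ) / (n + 3) < 1 / (n + 2) :=
      one_div_lt_one_div_of_lt (by positivity) (by linarith)
    simp only [hα]
    linarith
  have hmono : ∀ {i j : ℕ}, i < j → (2 : ℝ) + 1 / (j + 2) ≤ 2 + 1 / (i + 3) := by
    intro i j hij
    have h1 : (i : ℝ) + 1 ≤ j := by exact_mod_cast hij
    have : (1 : ℝ) / (j + 2) ≤ 1 / (i + 3) :=
      one_div_le_one_div_of_le (by positivity) (by linarith)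
    linarith
  have hrange : ∀ n : ℕ, 2 < α n ∧ α n < 2 + 1 / 2 := by
    intro n
    constructor
    · have := hα1 n
      have h2 : (0 : ℝ) < 1 / (n + 3) := by positivity
      linarith
    · have := hα2 n
      have h2 : (1 : ℝ) / (n + 2) ≤ 1 / 2 := by
        apply one_div_le_one_div_of_le (by norm_num)
        have : (0 : ℝ) ≤ n := by positivity
        linarith
      linarith
  have hαC : ∀ n : ℕ, α n ∉ Icc (0 : ℝ) 1 ∪ insert 2 (range fun n : ℕ => (2 : ℝ) + 1 / (n + 2)) := by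
    intro n hmem
    obtain ⟨hr1, hr2⟩ := hrange n
    rcases hmem with h | h
    · linarith [h.2]
    · rcases h with h | ⟨m, hm⟩
      · linarith
      · simp only at hm
        rcases le_or_gt m n with hmn | hmn
        · have h1 : (2 : ℝ) + 1 / (n + 2) ≤ 2 + 1 / (m + 2) := by
            have h2 : (m : ℝ) ≤ n := by exact_mod_cast hmn
            have : (1 : ℝ) / (n + 2) ≤ 1 / (m + 2) :=
              one_div_le_one_div_of_le (by positivity) (by linarith)
            linarith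
          linarith [hα2 n]
        · linarith [hα1 n, hmono hmn]
  have hwit : ∀ n : ℕ, ∃ y ∈ K, y + α n ∉ K ∧ y - α n ∉ K := by
    intro n
    by_contra hcon
    push Not at hcon
    apply hαC n
    rw [← hK]
    refine ⟨by linarith [(hrange n).1], fun x hx => ?_⟩
    by_cases h : x + α n ∈ K
    · refine ⟨_, h, ?_⟩
      have : x - (x + α n) = -α n := by ring
      rw [this, abs_neg, abs_of_pos (by linarith [(hrange n).1])]
    · refine ⟨_, hcon x hx h, ?_⟩
      have : x - (x - α n) = α n := by ring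
      rw [this, abs_of_pos (by linarith [(hrange n).1])]
  choose y hyK hy1 hy2 using hwit
  obtain ⟨a, -, φ, hφ, hlim⟩ := hKc.tendsto_subseq hyK
  obtain ⟨N, hN⟩ := Metric.tendsto_atTop.1 hlim (1 / 4) (by norm_num)
  -- pairs of indices
  have hpair : ∀ i j : ℕ, i ≠ j → y i ≤ y j → y j - y i < 1 / 2 →
      (∀ z, y i ≤ z → z ≤ y j → z ∈ K) → False := by
    intro i j hij hle hd hI
    have hri := hrange i
    have hrj := hrange j
    rcases lt_or_gt_of_ne hij with h | h
    · -- i < j : α j < β < α i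
      refine contraB H hle hd hI (hy1 i) (hy2 i) (hy1 j) (hy2 j) (β := 2 + 1 / (j + 2))
        (hα2 j) ((hmono h).trans_lt (hα1 i)) (by linarith) (hpm ?_)
      exact Or.inr (Or.inr ⟨j, rfl⟩)
    · refine contraA H hle hd hI (hy1 i) (hy2 i) (hy1 j) (hy2 j) (β := 2 + 1 / (i + 2))
        (hα2 i) ((hmono h).trans_lt (hα1 j)) (by linarith) (hpm ?_)
      exact Or.inr (Or.inr ⟨i, rfl⟩)
  have hclose : ∀ n ≥ N, |y (φ n) - a| < 1 / 4 := by
    intro n hn
    have := hN n hn
    rwa [Real.dist_eq] at this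
  have hc : ∀ n ≥ N, ∀ n' ≥ N, y (φ n) - y (φ n') < 1 / 2 := by
    intro n hn n' hn'
    have h1 := abs_lt.1 (hclose n hn)
    have h2 := abs_lt.1 (hclose n' hn')
    linarith
  -- three indices in increasing order of `y`
  have hthree : ∀ i j k : ℕ, i ≥ N → j ≥ N → k ≥ N → i ≠ j → j ≠ k →
      y (φ i) ≤ y (φ j) → y (φ j) ≤ y (φ k) → False := by
    intro i j k hi hj hk hij hjk h1 h2
    rcases three H h1 h2 (by linarith [hc k hk i hi]) (hyK (φ j)) with h | h
    · exact hpair (φ i) (φ j) (fun h => hij (hφ.injective h)) h1 (hc j hj i hi) h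
    · exact hpair (φ j) (φ k) (fun h => hjk (hφ.injective h)) h2 (hc k hk j hj) h
  have g0 : N ≥ N := le_rfl
  have g1 : N + 1 ≥ N := by omega
  have g2 : N + 2 ≥ N := by omega
  rcases le_total (y (φ N)) (y (φ (N + 1))) with h1 | h1
  · rcases le_total (y (φ (N + 1))) (y (φ (N + 2))) with h2 | h2
    · exact hthree N (N + 1) (N + 2) g0 g1 g2 (by omega) (by omega) h1 h2
    · rcases le_total (y (φ N)) (y (φ (N + 2))) with h3 | h3
      · exact hthree N (N + 2) (N + 1) g0 g2 g1 (by omega) (by omega) h3 h2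
      · exact hthree (N + 2) N (N + 1) g2 g0 g1 (by omega) (by omega) h3 h1
  · rcases le_total (y (φ N)) (y (φ (N + 2))) with h2 | h2
    · exact hthree (N + 1) N (N + 2) g1 g0 g2 (by omega) (by omega) h1 h2
    · rcases le_total (y (φ (N + 1))) (y (φ (N + 2))) with h3 | h3
      · exact hthree (N + 1) (N + 2) N g1 g2 g0 (by omega) (by omega) h3 h2
      · exact hthree (N + 2) (N + 1) N g2 g1 g0 (by omega) (by omega) h3 h1

lemma compactC : IsCompact (Icc (0 : ℝ) 1 ∪ insert 2 (range fun n : ℕ => (2 : ℝ) + 1 / (n + 2))) := by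
  apply isCompact_Icc.union
  apply Tendsto.isCompact_insert_range
  have h1 : Tendsto (fun n : ℕ => (1 : ℝ) / (n + 2)) atTop (𝓝 0) := by
    have h2 : Tendsto (fun n : ℕ => (n : ℝ) + 2) atTop atTop :=
      tendsto_atTop_add_const_right _ _ tendsto_natCast_atTop_atTop
    exact tendsto_const_nhds.div_atTop h2
  have := h1.const_add 2
  simpa using this

end Pool.Agent.Run7.h792.CD
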