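import Mathlib

set_option autoImplicit false

namespace Pool.Agent.Run7.h792.SJ

open Function

/-! ### Injective cellular automata over monoids have a left inverse cellular automaton -/

/-- Right convention `x (m * s)`: an injective CA has a local left inverse. -/
theorem inv_right {M : Type*} [Monoid M] {A : Type*} [Finite A] [Nonempty A]
    (S : Finset M) (μ : (S → A) → A)
    (hinj : Injective (fun (x : M → A) (m : M) => μ (fun s : S => x (m * s.1)))) :
    ∃ F : Finset M, ∃ δ : (F → A) → A, ∀ (x : M → A) (m : M),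
      δ (fun f : F => μ (fun s : S => x (m * f.1 * s.1))) = x m := by
  classical
  letI : TopologicalSpace A := ⊥
  haveI : DiscreteTopology A := ⟨rfl⟩
  set τ : (M → A) → (M → A) := fun x m => μ (fun s : S => x (m * s.1)) with hτ
  have hcont : Continuous τ := by
    refine continuous_pi fun m => ?_
    have h1 : Continuous (fun x : M → A => (fun s : S => x (m * s.1))) :=
      continuous_pi fun s => continuous_apply _
    exact (continuous_of_discreteTopology (f := μ)).comp h1
  let K : Set ((M → A) × (M → A)) := {p | p.1 1 ≠ p.2 1}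
  let Z : M → Set ((M → A) × (M → A)) := fun m => {p | τ p.1 m = τ p.2 m}
  have hK : IsCompact K := by
    apply IsClosed.isCompact
    have : K = (fun p : (M → A) × (M → A) => (p.1 1, p.2 1)) ⁻¹' {q : A × A | q.1 ≠ q.2} := rfl
    rw [this]
    refine (isClosed_discrete _).preimage ?_
    exact ((continuous_apply 1).comp continuous_fst).prodMk
      ((continuous_apply 1).comp continuous_snd)
  have hZ : ∀ m, IsClosed (Z m) := by
    intro m
    exact isClosed_eq ((continuous_apply m).comp (hcont.comp continuous_fst))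
      ((continuous_apply m).comp (hcont.comp continuous_snd))
  have hemp : K ∩ ⋂ m, Z m = ∅ := by
    ext p
    simp only [Set.mem_inter_iff, Set.mem_iInter, Set.mem_empty_iff_false, iff_false, not_and]
    intro hp hq
    have : τ p.1 = τ p.2 := funext hq
    have := hinj this
    exact hp (by rw [this])
  obtain ⟨F, hF⟩ := hK.elim_finite_subfamily_closed Z hZ hemp
  have key : ∀ x y : M → A, (∀ f : F, τ x f.1 = τ y f.1) → x 1 = y 1 := by
    intro x y h
    by_contra hne
    have : (x, y) ∈ K ∩ ⋂ i ∈ F, Z i := by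
      refine ⟨hne, ?_⟩
      simp only [Set.mem_iInter]
      intro i hi
      exact h ⟨i, hi⟩
    rw [hF] at this
    exact this
  refine ⟨F, fun w => if h : ∃ x : M → A, ∀ f : F, τ x f.1 = w f then (Classical.choose h) 1
    else Classical.arbitrary A, ?_⟩
  intro x m
  have hex : ∃ x' : M → A, ∀ f : F, τ x' f.1 = μ (fun s : S => x (m * f.1 * s.1)) :=
    ⟨fun n => x (m * n), fun f => by simp only [hτ, mul_assoc]⟩
  beta_reduce
  rw [dif_pos hex]
  have h2 := Classical.choose_spec hex
  have h3 := key (Classical.choose hex) (fun n => x (m * n)) (by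
    intro f
    rw [h2 f]
    simp only [hτ, mul_assoc])
  rw [h3, mul_one]

/-- Left convention `x (s * m)`: an injective CA has a local left inverse. -/
theorem inv_left {M : Type*} [Monoid M] {A : Type*} [Finite A] [Nonempty A]
    (S : Finset M) (μ : (S → A) → A)
    (hinj : Injective (fun (x : M → A) (m : M) => μ (fun s : S => x (s.1 * m)))) :
    ∃ F : Finset M, ∃ δ : (F → A) → A, ∀ (x : M → A) (m : M),
      δ (fun f : F => μ (fun s : S => x (s.1 * (f.1 * m)))) = x m := by
  classical
  letI : TopologicalSpace A := ⊥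
  haveI : DiscreteTopology A := ⟨rfl⟩
  set τ : (M → A) → (M → A) := fun x m => μ (fun s : S => x (s.1 * m)) with hτ
  have hcont : Continuous τ := by
    refine continuous_pi fun m => ?_
    have h1 : Continuous (fun x : M → A => (fun s : S => x (s.1 * m))) :=
      continuous_pi fun s => continuous_apply _
    exact (continuous_of_discreteTopology (f := μ)).comp h1
  let K : Set ((M → A) × (M → A)) := {p | p.1 1 ≠ p.2 1}
  let Z : M → Set ((M → A) × (M → A)) := fun m => {p | τ p.1 m = τ p.2 m}
  have hK : IsCompact K := by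
    apply IsClosed.isCompact
    have : K = (fun p : (M → A) × (M → A) => (p.1 1, p.2 1)) ⁻¹' {q : A × A | q.1 ≠ q.2} := rfl
    rw [this]
    refine (isClosed_discrete _).preimage ?_
    exact ((continuous_apply 1).comp continuous_fst).prodMk
      ((continuous_apply 1).comp continuous_snd)
  have hZ : ∀ m, IsClosed (Z m) := by
    intro m
    exact isClosed_eq ((continuous_apply m).comp (hcont.comp continuous_fst))
      ((continuous_apply m).comp (hcont.comp continuous_snd))
  have hemp : K ∩ ⋂ m, Z m = ∅ := by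
    ext p
    simp only [Set.mem_inter_iff, Set.mem_iInter, Set.mem_empty_iff_false, iff_false, not_and]
    intro hp hq
    have : τ p.1 = τ p.2 := funext hq
    have := hinj this
    exact hp (by rw [this])
  obtain ⟨F, hF⟩ := hK.elim_finite_subfamily_closed Z hZ hemp
  have key : ∀ x y : M → A, (∀ f : F, τ x f.1 = τ y f.1) → x 1 = y 1 := by
    intro x y h
    by_contra hne
    have : (x, y) ∈ K ∩ ⋂ i ∈ F, Z i := by
      refine ⟨hne, ?_⟩
      simp only [Set.mem_iInter]
      intro i hi
      exact h ⟨i, hi⟩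
    rw [hF] at this
    exact this
  refine ⟨F, fun w => if h : ∃ x : M → A, ∀ f : F, τ x f.1 = w f then (Classical.choose h) 1
    else Classical.arbitrary A, ?_⟩
  intro x m
  have hex : ∃ x' : M → A, ∀ f : F, τ x' f.1 = μ (fun s : S => x (s.1 * (f.1 * m))) :=
    ⟨fun n => x (n * m), fun f => by simp only [hτ, mul_assoc]⟩
  beta_reduce
  rw [dif_pos hex]
  have h2 := Classical.choose_spec hex
  have h3 := key (Classical.choose hex) (fun n => x (n * m)) (by
    intro f
    rw [h2 f]
    simp only [hτ, mul_assoc])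
  rw [h3, one_mul]

/-! ### Locally surjunctive implies surjunctive -/

/-- Right convention. -/
theorem local_right {M : Type*} [Monoid M] {A : Type*} [Finite A]
    (S : Finset M) (μ : (S → A) → A)
    (hinj : Injective (fun (x : M → A) (m : M) => μ (fun s : S => x (m * s.1))))
    (H : ∀ N : Submonoid M, N.FG → ∀ (T : Finset N) (ν : (T → A) → A),
      Injective (fun (x : N → A) (m : N) => ν (fun s : T => x (m * s.1))) →
      Surjective (fun (x : N → A) (m : N) => ν (fun s : T => x (m * s.1)))) :
    Surjective (fun (x : M → A) (m : M) => μ (fun s : S => x (m * s.1))) := by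
  classical
  rcases isEmpty_or_nonempty A with hA | hA
  · intro z
    exact (hA.false (z 1)).elim
  obtain ⟨F, δ, hδ⟩ := inv_right S μ hinj
  let N : Submonoid M := Submonoid.closure (((S ∪ F : Finset M)) : Set M)
  have hN : N.FG := ⟨S ∪ F, rfl⟩
  have hS : ∀ s : S, s.1 ∈ N := fun s => Submonoid.subset_closure (by simp [s.2])
  have hF : ∀ f : F, f.1 ∈ N := fun f => Submonoid.subset_closure (by simp [f.2])
  let T : Finset N := Finset.univ.image (fun s : S => (⟨s.1, hS s⟩ : N))
  let ν : (T → A) → A := fun w => μ (fun s => w ⟨⟨s.1, hS s⟩, by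
    simp only [T, Finset.mem_image, Finset.mem_univ, true_and]; exact ⟨s, rfl⟩⟩)
  let τ' : (N → A) → (N → A) := fun x m => μ (fun s : S => x (m * ⟨s.1, hS s⟩))
  let δ' : (N → A) → (N → A) := fun x m => δ (fun f : F => x (m * ⟨f.1, hF f⟩))
  have hτν : (fun (x : N → A) (m : N) => ν (fun s : T => x (m * s.1))) = τ' := rfl
  have hleft : ∀ X : N → A, δ' (τ' X) = X := by
    intro X
    let x : M → A := fun m => if h : m ∈ N then X ⟨m, h⟩ else Classical.arbitrary A
    have hx : ∀ n : N, x n.1 = X n := fun n => by simp [x]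
    funext n
    have h1 := hδ x n.1
    rw [hx n] at h1
    rw [← h1]
    simp only [δ', τ']
    congr 1
    funext f
    congr 1
    funext s
    rw [← hx]
    rfl
  have hinj' : Injective τ' := by
    intro X Y h
    rw [← hleft X, ← hleft Y, h]
  have hsurj : Surjective τ' := by
    have := H N hN T ν (by rw [hτν]; exact hinj')
    rwa [hτν] at this
  have hright : ∀ Z : N → A, τ' (δ' Z) = Z := by
    intro Z
    obtain ⟨X, rfl⟩ := hsurj Z
    rw [hleft]
  intro z
  refine ⟨fun m => δ (fun f : F => z (m * f.1)), ?_⟩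
  funext m
  have h2 := congrFun (hright (fun n : N => z (m * n.1))) 1
  simp only [Submonoid.coe_one, mul_one, τ', δ', one_mul, Submonoid.coe_mul] at h2
  simp only [mul_assoc]
  exact h2

/-- Left convention. -/
theorem local_left {M : Type*} [Monoid M] {A : Type*} [Finite A]
    (S : Finset M) (μ : (S → A) → A)
    (hinj : Injective (fun (x : M → A) (m : M) => μ (fun s : S => x (s.1 * m))))
    (H : ∀ N : Submonoid M, N.FG → ∀ (T : Finset N) (ν : (T → A) → A),
      Injective (fun (x : N → A) (m : N) => ν (fun s : T => x (s.1 * m))) →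
      Surjective (fun (x : N → A) (m : N) => ν (fun s : T => x (s.1 * m)))) :
    Surjective (fun (x : M → A) (m : M) => μ (fun s : S => x (s.1 * m))) := by
  classical
  rcases isEmpty_or_nonempty A with hA | hA
  · intro z
    exact (hA.false (z 1)).elim
  obtain ⟨F, δ, hδ⟩ := inv_left S μ hinj
  let N : Submonoid M := Submonoid.closure (((S ∪ F : Finset M)) : Set M)
  have hN : N.FG := ⟨S ∪ F, rfl⟩
  have hS : ∀ s : S, s.1 ∈ N := fun s => Submonoid.subset_closure (by simp [s.2])
  have hF : ∀ f : F, f.1 ∈ N := fun f => Submonoid.subset_closure (by simp [f.2])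
  let T : Finset N := Finset.univ.image (fun s : S => (⟨s.1, hS s⟩ : N))
  let ν : (T → A) → A := fun w => μ (fun s => w ⟨⟨s.1, hS s⟩, by
    simp only [T, Finset.mem_image, Finset.mem_univ, true_and]; exact ⟨s, rfl⟩⟩)
  let τ' : (N → A) → (N → A) := fun x m => μ (fun s : S => x (⟨s.1, hS s⟩ * m))
  let δ' : (N → A) → (N → A) := fun x m => δ (fun f : F => x (⟨f.1, hF f⟩ * m))
  have hτν : (fun (x : N → A) (m : N) => ν (fun s : T => x (s.1 * m))) = τ' := rfl
  have hleft : ∀ X : N → A, δ' (τ' X) = X := by
    intro X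
    let x : M → A := fun m => if h : m ∈ N then X ⟨m, h⟩ else Classical.arbitrary A
    have hx : ∀ n : N, x n.1 = X n := fun n => by simp [x]
    funext n
    have h1 := hδ x n.1
    rw [hx n] at h1
    rw [← h1]
    simp only [δ', τ']
    congr 1
    funext f
    congr 1
    funext s
    rw [← hx]
    rfl
  have hinj' : Injective τ' := by
    intro X Y h
    rw [← hleft X, ← hleft Y, h]
  have hsurj : Surjective τ' := by
    have := H N hN T ν (by rw [hτν]; exact hinj')
    rwa [hτν] at this
  have hright : ∀ Z : N → A, τ' (δ' Z) = Z := by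
    intro Z
    obtain ⟨X, rfl⟩ := hsurj Z
    rw [hleft]
  intro z
  refine ⟨fun m => δ (fun f : F => z (f.1 * m)), ?_⟩
  funext m
  have h2 := congrFun (hright (fun n : N => z (n.1 * m))) 1
  simp only [Submonoid.coe_one, one_mul, τ', δ', mul_one, Submonoid.coe_mul] at h2
  simp only [← mul_assoc]
  exact h2

/-! ### Residually finite monoids are surjunctive (right convention) -/

theorem resfin_right {M : Type*} [Monoid M]
    (hres : ∀ a b : M, a ≠ b → ∃ (Q : Type) (_ : Monoid Q) (_ : Finite Q) (φ : M →* Q), φ a ≠ φ b)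
    {A : Type*} [Finite A] (S : Finset M) (μ : (S → A) → A)
    (hinj : Injective (fun (x : M → A) (m : M) => μ (fun s : S => x (m * s.1)))) :
    Surjective (fun (x : M → A) (m : M) => μ (fun s : S => x (m * s.1))) := by
  classical
  rcases isEmpty_or_nonempty A with hA | hA
  · intro z
    exact (hA.false (z 1)).elim
  obtain ⟨F, δ, hδ⟩ := inv_right S μ hinj
  -- separating finite sets
  have hsep : ∀ E : Finset (M × M), ∃ (Q : Type) (_ : Monoid Q) (_ : Finite Q) (φ : M →* Q),
      ∀ p ∈ E, φ p.1 = φ p.2 → p.1 = p.2 := by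
    intro E
    induction E using Finset.induction_on with
    | empty => exact ⟨Unit, inferInstance, inferInstance, 1, by simp⟩
    | insert p E _ ih =>
      obtain ⟨Q, hQ, hQf, φ, hφ⟩ := ih
      by_cases hp : p.1 = p.2
      · refine ⟨Q, hQ, hQf, φ, ?_⟩
        intro q hq
        rcases Finset.mem_insert.1 hq with h | h
        · intro _; rw [h]; exact hp
        · exact hφ q h
      · obtain ⟨Q', hQ', hQf', ψ, hψ⟩ := hres p.1 p.2 hp
        refine ⟨Q × Q', inferInstance, inferInstance, φ.prod ψ, ?_⟩
        intro q hq heq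
        have h1 : φ q.1 = φ q.2 := congrArg Prod.fst heq
        have h2 : ψ q.1 = ψ q.2 := congrArg Prod.snd heq
        rcases Finset.mem_insert.1 hq with h | h
        · rw [h] at h2; exact absurd h2 hψ
        · exact hφ q h h1
  intro z
  refine ⟨fun m => δ (fun f : F => z (m * f.1)), ?_⟩
  funext m
  -- the finite window
  let E : Finset M := insert m ((S ×ˢ F).image (fun p => m * p.1 * p.2))
  obtain ⟨Q, hQ, hQf, φ, hφ⟩ := hsep (E ×ˢ E)
  have hφinj : ∀ a ∈ E, ∀ b ∈ E, φ a = φ b → a = b := fun a ha b hb h =>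
    hφ (a, b) (Finset.mem_product.2 ⟨ha, hb⟩) h
  let ξ : Q → A := fun q => if h : ∃ a ∈ E, φ a = q then z (Classical.choose h) else
    Classical.arbitrary A
  have hξ : ∀ a ∈ E, ξ (φ a) = z a := by
    intro a ha
    have hex : ∃ b ∈ E, φ b = φ a := ⟨a, ha, rfl⟩
    simp only [ξ]
    rw [dif_pos hex]
    have := Classical.choose_spec hex
    rw [hφinj _ this.1 _ ha this.2]
  -- the induced map on the finite set of periodic configurations
  let τQ : (Set.range φ → A) → (Set.range φ → A) := fun η q =>
    μ (fun s : S => η ⟨q.1 * φ s.1, by obtain ⟨a, ha⟩ := q.2; exact ⟨a * s.1, by rw [map_mul, ha]⟩⟩)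
  have hτQ : ∀ (η : Set.range φ → A) (n : M),
      τQ η ⟨φ n, n, rfl⟩ = μ (fun s : S => η ⟨φ (n * s.1), _, rfl⟩) := by
    intro η n
    simp only [τQ, map_mul]
  have hinjQ : Injective τQ := by
    intro η η' h
    have h1 : (fun n : M => η ⟨φ n, n, rfl⟩) = fun n : M => η' ⟨φ n, n, rfl⟩ := by
      apply hinj
      funext n
      have := congrFun h ⟨φ n, n, rfl⟩
      rw [hτQ, hτQ] at this
      exact this
    funext q
    obtain ⟨q, n, rfl⟩ := q
    exact congrFun h1 n
  have hsurjQ : Surjective τQ := Finite.injective_iff_surjective.1 hinjQ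
  obtain ⟨η, hη⟩ := hsurjQ (fun q => ξ q.1)
  let x' : M → A := fun n => η ⟨φ n, n, rfl⟩
  have hx' : ∀ n, μ (fun s : S => x' (n * s.1)) = ξ (φ n) := by
    intro n
    have := congrFun hη ⟨φ n, n, rfl⟩
    rw [hτQ] at this
    exact this
  have hδx : ∀ s : S, δ (fun f : F => z (m * s.1 * f.1)) = x' (m * s.1) := by
    intro s
    rw [← hδ x' (m * s.1)]
    congr 1
    funext f
    rw [hx', hξ]
    refine Finset.mem_insert_of_mem (Finset.mem_image.2 ⟨(s.1, f.1), ?_, rfl⟩)
    exact Finset.mem_product.2 ⟨s.2, f.2⟩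
  simp only [hδx]
  rw [hx', hξ]
  exact Finset.mem_insert_self _ _

/-! ### Finitely generated commutative monoids are residually finite -/

theorem comm_resfin {M : Type} [CommMonoid M] [Monoid.FG M] (a b : M) (hab : a ≠ b) :
    ∃ (Q : Type) (_ : Monoid Q) (_ : Finite Q) (φ : M →* Q), φ a ≠ φ b := by
  classical
  haveI : Fact (Nat.Prime 2) := ⟨Nat.prime_two⟩
  let R := MonoidAlgebra (ZMod 2) M
  haveI hft : Algebra.FiniteType (ZMod 2) R := MonoidAlgebra.finiteType_of_fg
  haveI hnoeth : IsNoetherianRing R := Algebra.FiniteType.isNoetherianRing (ZMod 2) R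
  let r : R := MonoidAlgebra.of (ZMod 2) M a - MonoidAlgebra.of (ZMod 2) M b
  have hr : r ≠ 0 := by
    intro h
    have h1 : MonoidAlgebra.of (ZMod 2) M a = MonoidAlgebra.of (ZMod 2) M b := sub_eq_zero.1 h
    exact hab (MonoidAlgebra.of_injective h1)
  let J : Ideal R := Ideal.span {x | x * r = 0}
  have hJ : ∀ x ∈ J, x * r = 0 := by
    intro x hx
    induction hx using Submodule.span_induction with
    | mem x h => exact h
    | zero => simp
    | add x y _ _ hx hy => rw [add_mul, hx, hy, add_zero]
    | smul c x _ hx => rw [smul_eq_mul, mul_assoc, hx, mul_zero]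
  have hJne : J ≠ ⊤ := by
    intro h
    have : (1 : R) ∈ J := by rw [h]; trivial
    have := hJ 1 this
    rw [one_mul] at this
    exact hr this
  obtain ⟨m, hm, hJm⟩ := Ideal.exists_le_maximal J hJne
  have hnot : r ∉ (⨅ i : ℕ, m ^ i • (⊤ : Submodule R R)) := by
    intro h
    rw [Ideal.mem_iInf_smul_pow_eq_bot_iff] at h
    obtain ⟨c, hc⟩ := h
    have h1 : (1 - (c : R)) * r = 0 := by
      rw [sub_mul, one_mul, sub_eq_zero]
      exact hc.symm
    have h2 : (1 - (c : R)) ∈ m := hJm (Ideal.subset_span h1)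
    have h3 : (1 : R) ∈ m := by
      have := m.add_mem h2 c.2
      simpa using this
    exact hm.ne_top ((Ideal.eq_top_iff_one m).2 h3)
  rw [Submodule.mem_iInf] at hnot
  push Not at hnot
  obtain ⟨n, hn⟩ := hnot
  have hn' : r ∉ m ^ n := by
    intro h
    apply hn
    rw [Ideal.smul_eq_mul, Ideal.mul_top]
    exact h
  haveI := hm
  letI : Field (R ⧸ m) := Ideal.Quotient.field m
  haveI : Algebra.FiniteType (ZMod 2) (R ⧸ m) :=
    Algebra.FiniteType.of_surjective (Ideal.Quotient.mkₐ (ZMod 2) m)
      (Ideal.Quotient.mkₐ_surjective (ZMod 2) m)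
  haveI : Module.Finite (ZMod 2) (R ⧸ m) := finite_of_finite_type_of_isJacobsonRing (ZMod 2) (R ⧸ m)
  haveI : Finite (R ⧸ m) := Module.finite_of_finite (ZMod 2)
  haveI : Finite (R ⧸ m ^ n) := Ideal.finite_quotient_pow ((isNoetherianRing_iff_ideal_fg R).1 hnoeth m) n
  refine ⟨R ⧸ m ^ n, inferInstance, inferInstance,
    ((Ideal.Quotient.mk (m ^ n)) : R →* R ⧸ m ^ n).comp (MonoidAlgebra.of (ZMod 2) M), ?_⟩
  intro h
  apply hn'
  simp only [MonoidHom.comp_apply, MonoidHom.coe_coe] at h
  rw [← Ideal.Quotient.eq_zero_iff_mem, map_sub, sub_eq_zero]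
  exact h

end Pool.Agent.Run7.h792.SJ
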